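import Pool.Agent.MP_ee8c61_ag.M3.Frame
import Pool.Agent.MP_ee8c61_ag.M3BK.Defs

/-!
Orders of poles in three variables: the data without the hypothesis that `-la` is not a root,
and the statements of the blocks.
-/

namespace Pool.Agent.MP_ee8c61_ag.Q3

open H59 hiding pd
open M3 M3RESID M3F

noncomputable section

/-- The functional equation. -/
structure Hyp0 (f : Po 3) (b : Polynomial ℂ) (β : Fin 3 → PX 3 (KK 3)) (Q : PX 3 (KK 3)) :
    Prop where
  ne : f ≠ 0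
  isbs : H10.IsBS ![f] b
  bs : BSd f b β Q

/-- The standing hypotheses. -/
structure Sit0 (f : Po 3) (la : ℚ) (b : Polynomial ℂ) (β : Fin 3 → PX 3 (KK 3))
    (Q : PX 3 (KK 3)) (M : Mod 3) (C : Ch f M) (o : M.J) : Prop where
  hyp : Hyp0 f b β Q
  ok : M.OK f
  zero : M.ex la o = 0
  alive : C.Alive o

section Surf

variable {L : Type} [Field L] [Algebra ℂ L]

/-- A surface with a rationally twisted volume form and a primitive. -/
structure Srf0 (C : Co L 2) (d : Dv L) (v : VF L) (b : ℂ) : Prop where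
  fin : FiniteDimensional (IntermediateField.adjoin ℂ (Set.range C.z)) L
  rat : ∃ (q : ℕ) (ψ : L), 0 < q ∧ ψ ≠ 0 ∧ ∀ X, d.δ X = C.dv.δ X + X ψ / (q * ψ)
  prim : d.δ v = algebraMap ℂ L b

/-- The volume form and the primitive. -/
structure Vol0 (D : SD L) : Prop where
  srf : Srf0 D.C D.d D.v D.b
  q0 : 0 < D.q
  ψ0 : D.ψ ≠ 0
  rat : ∀ X, D.d.δ X = D.C.dv.δ X + X D.ψ / (D.q * D.ψ)
  exp : ∀ Γ, Cv D.x Γ → Exp D.d Γ (D.ex Γ)

/-- The properties of the datum of an alive divisor of exponent zero. -/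
structure OK1 (D : SD L) : Prop where
  vol : Vol0 D
  sem : D.Sem
  nul : D.Nul
  big : D.Big
  sgn : D.Sgn
  kvl : D.Kvl

/-- The type of a curve of exponent zero that does not contribute to the double pole. -/
def TY0 (d : Dv L) (X₀ : Set L) (G : DV L) : Prop :=
  ∃ (σ : G.kf) (θ : VF G.kf) (μ : ℂ), μ ≠ 0 ∧ M3BK.P1 σ θ ∧
    (∀ e, G.pl.RsD d e → e.δ θ = algebraMap ℂ _ μ) ∧
    ∀ c ∈ X₀, G.pl.π c ∈ Set.range (algebraMap ℂ G.kf)

end Surf

/-- A statement about the data of all alive divisors of exponent zero. -/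
def AllI0 (p : ∀ {f : Po 3} {M : Mod 3} (C : Ch f M) (_ : ℚ) (_ : Polynomial ℂ) (o : M.J),
    Ch.AV (M := M) o → C.AS o → Prop) : Prop :=
  ∀ (f : Po 3) (la : ℚ) (b : Polynomial ℂ) (β : Fin 3 → PX 3 (KK 3)) (Q : PX 3 (KK 3))
    (M : Mod 3) (C : Ch f M) (o : M.J) (X : Ch.AV (M := M) o) (Y : C.AS o),
    Sit0 f la b β Q M C o → X.OK f la β → Y.OK la → p C la b o X Y

/-! ### Block P: the rows of the main theorem without the hypothesis on the root -/

def IAV0 : Prop := ∀ (f : Po 3) (la : ℚ) (b : Polynomial ℂ) (β : Fin 3 → PX 3 (KK 3))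
  (Q : PX 3 (KK 3)) (M : Mod 3) (o : M.J), Hyp0 f b β Q → M.OK f → M.ex la o = 0 →
  ∃ X : Ch.AV (M := M) o, X.OK f la β

def IOK1 : Prop := AllI0 fun C la b o X Y => OK1 (C.sd la b o X Y)

def ISmall0 : Prop := AllI0 fun C la b o X Y => C.Dead o → (C.sd la b o X Y).Small

def IPen0 : Prop := AllI0 fun C la b o X Y => C.Death o → (C.sd la b o X Y).Pen

/-- The output of block P. -/
structure POut : Prop where
  av : IAV0
  as : IAS
  ok : IOK1
  small : ISmall0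
  pen : IPen0
  ch : SCH

/-! ### Thresholds -/

/-- If no curve on the divisor has a negative exponent, the divisors with negative exponent lie
away from its centre. -/
def SLS : Prop := ∀ (f : Po 3) (la : ℚ) (M : Mod 3) (o : M.J) (e : Dv (M.v o).kf), f ≠ 0 →
  M.OK f → M.ex la o = 0 → (M.v o).pl.RsD (dvf f la) e →
  (∀ (Γ : DV (M.v o).kf) (a : ℚ), (∃ π, Γ.v π = 1) → (∃ g, NC Γ g) →
    (∀ p : Po 3, Γ.v ((M.v o).pl.π (ip 3 p)) = 0) → Exp e Γ a → 0 ≤ a) →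
  ∃ g : Po 3, Un (M.v o).O (ip 3 g) ∧ ∀ j, M.ex la j < 0 → ip 3 g ∈ (M.v j).F 1

/-- The multiplicity of the root at a local threshold. -/
def SRT : Prop := ∀ (f : Po 3) (la : ℚ) (b : Polynomial ℂ) (M : Mod 3) (I : Finset M.J)
  (V : Vl 3) (g : Po 3), f ≠ 0 → H10.IsBS ![f] b → M.OK f → Ov V →
  (∀ i ∈ I, M.ex la i = 0 ∧ M.Thru V i) → Un V (ip 3 g) →
  (∀ j, M.ex la j < 0 → ip 3 g ∈ (M.v j).F 1) →
  (Polynomial.X + Polynomial.C (la : ℂ)) ^ I.card ∣ b

/-! ### Simple roots -/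

/-- At a simple root there is a higher model on which the complete core curves of exponent zero
are contracted at time zero. -/
def SIZ : Prop := ∀ (f : Po 3) (la : ℚ) (b : Polynomial ℂ) (β : Fin 3 → PX 3 (KK 3))
  (Q : PX 3 (KK 3)) (M' : Mod 3), Hyp0 f b β Q → M'.OK f → b.eval (-(la : ℂ)) = 0 →
  b.derivative.eval (-(la : ℂ)) ≠ 0 → ∃ (M : Mod 3) (_ : Dom M M'), M.OK f ∧
    ∀ (C : Ch f M) (o : M.J) (X : Ch.AV (M := M) o) (Y : C.AS o), Sit0 f la b β Q M C o →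
      X.OK f la β → Y.OK la → C.t = 0 → ∀ Γ j, Cv (C.sd la b o X Y).x Γ →
      (C.sd la b o X Y).Core j Γ → (C.sd la b o X Y).al j = 0 →
      (∀ l, ¬NC Γ ((C.sd la b o X Y).x l)) → Null (C.sd la b o X Y).x (C.sd la b o X Y).S0 Γ

/-! ### Strata of exponent zero -/

/-- A triple point of exponent zero gives a triple root. -/
def T3 : Prop := ∀ (f : Po 3) (la : ℚ) (b : Polynomial ℂ) (M : Mod 3) (I : Finset M.J), f ≠ 0 →
  H10.IsBS ![f] b → M.OK f → I.card = 3 → (∀ i ∈ I, M.ex la i = 0) →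
  ∀ Q ∈ M.pts, (∀ i ∈ I, M.On Q i) → (Polynomial.X + Polynomial.C (la : ℂ)) ^ 3 ∣ b

/-- A double curve of exponent zero gives a double root or does not contribute. -/
def T2 : Prop := ∀ (f : Po 3) (la : ℚ) (b : Polynomial ℂ) (M : Mod 3) (o j : M.J)
  (e : Dv (M.v o).kf) (G : DV (M.v o).kf), f ≠ 0 → H10.IsBS ![f] b → M.OK f →
  b.eval (-(la : ℂ)) = 0 → ¬(Polynomial.X + Polynomial.C (la : ℂ)) ^ 2 ∣ b → M.ex la o = 0 →
  M.ex la j = 0 → (M.v o).pl.RsD (dvf f la) e → M3BK.Nrm G →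
  M.IsCv o j (lift (M.v o).pl G) → TY0 e (M3BK.xb (M.v o).pl) G

open AlgebraicGeometry in
/-- The theorem. -/
def Main2 : Prop := ∀ (f : MvPolynomial (Fin 3) ℂ) (b : Polynomial ℂ) (Y : Scheme.{0})
  (π : Y ⟶ H95.Aff 3) (J : Type) [Fintype J] (E : J → Set Y) (a k : J → ℕ) (χ : Set Y → ℤ),
  f ≠ 0 → H10.IsBS ![f] b → H95.IsLogRes (Ideal.span {f}) π E a k → H95.IsChi π χ →
  ∃ p : Polynomial ℂ, algebraMap (Polynomial ℂ) (RatFunc ℂ) b * H95.zeta E a k χ =
    algebraMap (Polynomial ℂ) (RatFunc ℂ) p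

end

end Pool.Agent.MP_ee8c61_ag.Q3
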